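import Pool.Agent.H242R3.ES.Stmts

set_option autoImplicit false
set_option maxHeartbeats 4000000

open MeasureTheory Finset
open scoped Classical

namespace Pool.Agent.H821R3.ES

open Pool.Agent.H242R3.ES

/-- the Lorentz form as a bilinear map -/
noncomputable def Bl (D : ℕ) : LV D →ₗ[ℝ] LV D →ₗ[ℝ] ℝ :=
  LinearMap.mk₂ ℝ B
    (by
      intro x y z
      simp only [B, Pi.add_apply, add_mul, Finset.sum_add_distrib]
      ring)
    (by
      intro c x y
      simp only [B, Pi.smul_apply, smul_eq_mul, mul_assoc, ← Finset.mul_sum]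
      ring)
    (by
      intro x y z
      simp only [B, Pi.add_apply, mul_add, Finset.sum_add_distrib]
      ring)
    (by
      intro c x y
      simp only [B, Pi.smul_apply, smul_eq_mul, mul_left_comm _ c, ← Finset.mul_sum]
      ring)

variable {D : ℕ}

theorem Bl_apply (x y : LV D) : Bl D x y = B x y := rfl

theorem B_comm (x y : LV D) : B x y = B y x := by
  unfold B
  rw [mul_comm (x none)]
  congr 1
  exact Finset.sum_congr rfl fun i _ => mul_comm _ _

theorem Bar (x y z : LV D) : B x (y + z) = B x y + B x z := (Bl D x).map_add y z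
theorem Bsr (x y z : LV D) : B x (y - z) = B x y - B x z := (Bl D x).map_sub y z
theorem Bmr (c : ℝ) (x y : LV D) : B x (c • y) = c * B x y := (Bl D x).map_smul c y
theorem Bal (x y z : LV D) : B (x + y) z = B x z + B y z := by
  rw [B_comm, Bar, B_comm z x, B_comm z y]
theorem Bsl (x y z : LV D) : B (x - y) z = B x z - B y z := by
  rw [B_comm, Bsr, B_comm z x, B_comm z y]
theorem Bml (c : ℝ) (x y : LV D) : B (c • x) y = c * B x y := by
  rw [B_comm, Bmr, B_comm]

theorem pos_of_orth (t w : LV D) (ht : B t t < 0) (hw : B t w = 0) (h0 : w ≠ 0) : 0 < B w w := by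
  have hCS := Finset.sum_mul_sq_le_sq_mul_sq Finset.univ (fun i : Fin D => t (some i))
    (fun i : Fin D => w (some i))
  unfold B at *
  have e1 : ∑ i : Fin D, t (some i) * t (some i) = ∑ i : Fin D, t (some i) ^ 2 :=
    Finset.sum_congr rfl fun i _ => (sq _).symm
  have e2 : ∑ i : Fin D, w (some i) * w (some i) = ∑ i : Fin D, w (some i) ^ 2 :=
    Finset.sum_congr rfl fun i _ => (sq _).symm
  rw [e1] at ht
  rw [e2]
  have hS2 : 0 ≤ ∑ i : Fin D, w (some i) ^ 2 := Finset.sum_nonneg fun i _ => sq_nonneg _
  have hS1 : 0 ≤ ∑ i : Fin D, t (some i) ^ 2 := Finset.sum_nonneg fun i _ => sq_nonneg _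
  have ht0 : t none ≠ 0 := by
    intro h
    rw [h] at ht
    linarith
  have ht2 : 0 < t none ^ 2 := by positivity
  rcases hS2.lt_or_eq with h | h
  · have h3 : ∑ i : Fin D, t (some i) * w (some i) = t none * w none := by linarith
    rw [h3] at hCS
    have h4 : (∑ i : Fin D, t (some i) ^ 2) * (∑ i : Fin D, w (some i) ^ 2) <
        t none ^ 2 * (∑ i : Fin D, w (some i) ^ 2) := by
      refine mul_lt_mul_of_pos_right ?_ h
      nlinarith
    have h5 : t none ^ 2 * w none ^ 2 < t none ^ 2 * (∑ i : Fin D, w (some i) ^ 2) := by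
      nlinarith
    have h6 := lt_of_mul_lt_mul_left h5 ht2.le
    nlinarith
  · exfalso
    have h1 : ∀ i : Fin D, w (some i) = 0 := by
      intro i
      have := (Finset.sum_eq_zero_iff_of_nonneg (fun i _ => sq_nonneg (w (some i)))).1 h.symm i
        (Finset.mem_univ i)
      exact pow_eq_zero_iff (two_ne_zero) |>.1 this
    have h2 : w none = 0 := by
      have h3 : ∑ i : Fin D, t (some i) * w (some i) = 0 :=
        Finset.sum_eq_zero fun i _ => by rw [h1 i, mul_zero]
      rw [h3] at hw
      have h4 : t none * w none = 0 := by linarith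
      rcases mul_eq_zero.1 h4 with h5 | h5
      · exact absurd h5 ht0
      · exact h5
    apply h0
    funext x
    cases x with
    | none => exact h2
    | some i => exact h1 i

theorem iso (W : Type) [AddCommGroup W] [Module ℝ W] [FiniteDimensional ℝ W]
    (b : W →ₗ[ℝ] W →ₗ[ℝ] ℝ) (hs : ∀ x y, b x y = b y x) (hp : ∀ x, x ≠ 0 → 0 < b x x) (m : ℕ)
    (hm : Module.finrank ℝ W = m) :
    ∃ e : W ≃ₗ[ℝ] EuclideanSpace ℝ (Fin m), ∀ x y, inner ℝ (e x) (e y) = b x y := by
  let c : InnerProductSpace.Core ℝ W :=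
    { inner := fun x y => b x y
      conj_inner_symm := fun x y => by
        simp only [conj_trivial]
        exact hs y x
      re_inner_nonneg := fun x => by
        simp only [RCLike.re_to_real]
        by_cases h : x = 0
        · rw [h]
          simp
        · exact (hp x h).le
      add_left := fun x y z => by simp
      smul_left := fun x y r => by simp
      definite := fun x h => by
        by_contra h'
        exact absurd h (hp x h').ne' }
  let _ : NormedAddCommGroup W := c.toNormedAddCommGroup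
  let _ : InnerProductSpace ℝ W := InnerProductSpace.ofCore c.toCore
  let bb := (stdOrthonormalBasis ℝ W).reindex (finCongr hm)
  refine ⟨bb.repr.toLinearEquiv, fun x y => ?_⟩
  exact bb.repr.inner_map_map x y

theorem dual_fun {ι E : Type} [AddCommGroup E] [Module ℝ E] (V : ι → E) (S : Set ι)
    (h : LinearIndependent ℝ (fun i : S => V i)) (i0 : ι) (hi0 : i0 ∈ S) :
    ∃ φ : E →ₗ[ℝ] ℝ, φ (V i0) = 1 ∧ ∀ i ∈ S, i ≠ i0 → φ (V i) = 0 := by
  let b := Module.Basis.span h
  obtain ⟨φ, hφ⟩ := (b.coord ⟨i0, hi0⟩).exists_extend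
  have key : ∀ i : S, φ (V i) = b.coord ⟨i0, hi0⟩ (b i) := by
    intro i
    rw [← hφ, LinearMap.comp_apply]
    congr 1
    exact (congrArg Subtype.val (Module.Basis.span_apply h i)).symm
  refine ⟨φ, ?_, ?_⟩
  · rw [key ⟨i0, hi0⟩]
    simp
  · intro i hi hne
    rw [key ⟨i, hi⟩]
    have : (⟨i, hi⟩ : S) ≠ ⟨i0, hi0⟩ := fun h => hne (congrArg Subtype.val h)
    simp [this]

theorem taskP3 : TaskP3 := by
  intro hC1 hC2 hC3 hP1 D hD ι _ V hV v j o hj ho hoj hnf
  have sc : SC V := ⟨hV.vert, hV.span, hV.simp⟩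
  have hE : Module.finrank ℝ (LV D) = D + 1 := by
    rw [Module.finrank_fintype_fun_eq_card, Fintype.card_option, Fintype.card_fin]
  have hcard : D + 1 ≤ Fintype.card ι := by
    have h1 := finrank_range_le_card (R := ℝ) V
    have h2 : (Set.range V).finrank ℝ = D + 1 := by
      unfold Set.finrank
      rw [hV.span, finrank_top, hE]
    omega
  have hnu : ∀ a b c : ι, ({a, b, c} : Set ι) ≠ Set.univ := by
    intro a b c h
    have h1 : (Finset.univ : Finset ι) ⊆ {a, b, c} := by
      intro x _
      have : x ∈ ({a, b, c} : Set ι) := h ▸ Set.mem_univ x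
      simpa using this
    have h2 := Finset.card_le_card h1
    have h3 := Finset.card_le_three (a := a) (b := b) (c := c)
    rw [Finset.card_univ] at h2
    omega
  have sub3 : ∀ a b c : ι, Face V {a, b, c} → ∀ T : Set ι, T ⊆ {a, b, c} → Face V T :=
    fun a b c h T hT => hC1 ι (LV D) V sc _ T h (hnu a b c) hT
  -- products
  have hjv : j ≠ v := hj.1
  have hov : o ≠ v := ho.1
  have hvv : B (V v) (V v) = 1 := hV.norm v
  have hjj : B (V j) (V j) = 1 := hV.norm j
  have hoo : B (V o) (V o) = 1 := hV.norm o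
  have hvj : B (V v) (V j) = -1 := hV.edge v j (Ne.symm hjv) hj.2
  have hvo : B (V v) (V o) = -1 := hV.edge v o hov.symm ho.2
  have hjv' : B (V j) (V v) = -1 := by rw [B_comm, hvj]
  have hov' : B (V o) (V v) = -1 := by rw [B_comm, hvo]
  set c := cc V o j with hc
  have hcpos : 0 < c := by
    have := hP1 D (by omega) ι V hV v j o hj ho (Ne.symm hoj)
    rw [hc]
    unfold cc
    linarith
  have hjo : B (V j) (V o) = 1 - c := by
    rw [hc]
    unfold cc
    ring
  have hoj' : B (V o) (V j) = 1 - c := by rw [B_comm, hjo]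
  set Xj := V v + V j with hXj
  set Xo := V v + V o with hXo
  have xvj : B (V v) Xj = 0 := by rw [hXj, Bar, hvv, hvj]; ring
  have xvo : B (V v) Xo = 0 := by rw [hXo, Bar, hvv, hvo]; ring
  have xjv : B Xj (V v) = 0 := by rw [B_comm, xvj]
  have xov : B Xo (V v) = 0 := by rw [B_comm, xvo]
  have xjj : B Xj Xj = 0 := by
    rw [hXj, Bar, Bal, Bal, hvv, hvj, hjj, hjv']
    ring
  have xoo : B Xo Xo = 0 := by
    rw [hXo, Bar, Bal, Bal, hvv, hvo, hoo, hov']
    ring
  have xjo : B Xj Xo = -c := by
    rw [hXj, hXo, Bar, Bal, Bal, hvv, hvo, hjv', hjo]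
    ring
  have xoj : B Xo Xj = -c := by rw [B_comm, xjo]
  -- the index set
  let κ : Type := {k : ι // k ≠ v ∧ k ≠ j ∧ Face V {v, j, k}}
  let f : κ ↪ ι := Function.Embedding.subtype _
  have hf : ∀ k : κ, f k ≠ v ∧ f k ≠ j ∧ Face V {v, j, f k} := fun k => k.2
  have hvk : ∀ k : κ, B (V v) (V (f k)) = -1 := by
    intro k
    refine hV.edge v (f k) (Ne.symm (hf k).1) (sub3 _ _ _ (hf k).2.2 _ ?_)
    intro x hx
    simp only [Set.mem_insert_iff, Set.mem_singleton_iff] at hx ⊢
    tauto
  have hjk : ∀ k : κ, B (V j) (V (f k)) = -1 := by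
    intro k
    refine hV.edge j (f k) (Ne.symm (hf k).2.1) (sub3 _ _ _ (hf k).2.2 _ ?_)
    intro x hx
    simp only [Set.mem_insert_iff, Set.mem_singleton_iff] at hx ⊢
    tauto
  have hok : ∀ k : κ, B (V o) (V (f k)) = 1 - cc V o (f k) := by
    intro k
    unfold cc
    rw [B_comm]
    ring
  -- the projections
  let wv : κ → LV D := fun k => (V v + V (f k)) - (cc V o (f k) / c) • Xj - (2 / c) • Xo
  have hwv : ∀ k, wv k = (V v + V (f k)) - (cc V o (f k) / c) • Xj - (2 / c) • Xo := fun _ => rfl
  have wv1 : ∀ k, B (V v) (wv k) = 0 := by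
    intro k
    rw [hwv, Bsr, Bsr, Bmr, Bmr, Bar, hvv, hvk, xvj, xvo]
    ring
  have wv2 : ∀ k, B Xj (wv k) = 0 := by
    intro k
    rw [hwv, Bsr, Bsr, Bmr, Bmr, Bar, xjv, xjj, xjo, hXj, Bal, hvk, hjk]
    field_simp
    ring
  have wv3 : ∀ k, B Xo (wv k) = 0 := by
    intro k
    rw [hwv, Bsr, Bsr, Bmr, Bmr, Bar, xov, xoj, xoo, hXo, Bal, hvk, hok]
    field_simp
    ring
  have wvV : ∀ k, V (f k) = wv k + (cc V o (f k) / c) • Xj + (2 / c) • Xo - V v := by
    intro k
    rw [hwv]
    abel
  have wvw : ∀ i k, B (wv i) (wv k) =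
      B (V v + V (f i)) (V v + V (f k)) + 2 * (cc V o (f i) / c + cc V o (f k) / c) := by
    intro i k
    have h1 : B (wv i) (wv k) = B (wv i) (V v + V (f k)) := by
      conv_lhs => rw [hwv k]
      rw [Bsr, Bsr, Bmr, Bmr, B_comm (wv i) Xj, B_comm (wv i) Xo, wv2, wv3]
      ring
    rw [h1, hwv i, Bsl, Bsl, Bml, Bml]
    have h2 : B Xj (V v + V (f k)) = -2 := by
      rw [Bar, xjv, hXj, Bal, hvk, hjk]
      ring
    have h3 : B Xo (V v + V (f k)) = -cc V o (f k) := by
      rw [Bar, xov, hXo, Bal, hvk, hok]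
      ring
    rw [h2, h3]
    field_simp
    ring
  -- the Euclidean space
  let L : LV D →ₗ[ℝ] (Fin 3 → ℝ) := LinearMap.pi ![Bl D (V v), Bl D Xj, Bl D Xo]
  let W : Submodule ℝ (LV D) := LinearMap.ker L
  have memW : ∀ x, x ∈ W ↔ B (V v) x = 0 ∧ B Xj x = 0 ∧ B Xo x = 0 := by
    intro x
    change L x = 0 ↔ _
    constructor
    · intro h
      exact ⟨congrFun h 0, congrFun h 1, congrFun h 2⟩
    · rintro ⟨h1, h2, h3⟩
      funext i
      fin_cases i
      · exact h1
      · exact h2
      · exact h3
  have hLsurj : LinearMap.range L = ⊤ := by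
    rw [LinearMap.range_eq_top]
    intro y
    refine ⟨y 0 • V v + (-(y 2) / c) • Xj + (-(y 1) / c) • Xo, ?_⟩
    funext i
    fin_cases i
    · change B (V v) _ = y 0
      rw [Bar, Bar, Bmr, Bmr, Bmr, hvv, xvj, xvo]
      ring
    · change B Xj _ = y 1
      rw [Bar, Bar, Bmr, Bmr, Bmr, xjv, xjj, xjo]
      field_simp
      ring
    · change B Xo _ = y 2
      rw [Bar, Bar, Bmr, Bmr, Bmr, xov, xoj, xoo]
      field_simp
      ring
  obtain ⟨m, hm⟩ : ∃ m, m + 2 = D := ⟨D - 2, by omega⟩
  have hWfin : Module.finrank ℝ W = m := by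
    have h1 := LinearMap.finrank_range_add_finrank_ker L
    rw [hLsurj, finrank_top, hE, Module.finrank_fintype_fun_eq_card, Fintype.card_fin] at h1
    change 3 + Module.finrank ℝ W = D + 1 at h1
    omega
  have hWpos : ∀ x : W, x ≠ 0 → 0 < B (x : LV D) x := by
    intro x hx
    obtain ⟨h1, h2, h3⟩ := (memW x).1 x.2
    refine pos_of_orth (Xj + Xo) x ?_ ?_ ?_
    · rw [Bar, Bal Xj Xo Xj, Bal Xj Xo Xo, xjj, xjo, xoj, xoo]
      linarith
    · rw [Bal, h2, h3]
      ring
    · intro h
      exact hx (Subtype.ext h)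
  obtain ⟨e, he⟩ := iso W ((Bl D).domRestrict₁₂ W W) (fun x y => B_comm _ _) hWpos m hWfin
  have he' : ∀ x y : W, inner ℝ (e x) (e y) = B (x : LV D) y := he
  let uw : κ → W := fun k => ⟨(1 / 2 : ℝ) • wv k, (memW _).2 ⟨by rw [Bmr, wv1, mul_zero],
    by rw [Bmr, wv2, mul_zero], by rw [Bmr, wv3, mul_zero]⟩⟩
  have huw : ∀ k, ((uw k : W) : LV D) = (1 / 2 : ℝ) • wv k := fun _ => rfl
  let u : κ → EuclideanSpace ℝ (Fin m) := fun k => e (uw k)
  have hu : ∀ k, u k = e (uw k) := fun _ => rfl
  have huu : ∀ i k, inner ℝ (u i) (u k) = 1 / 4 * B (wv i) (wv k) := by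
    intro i k
    rw [hu, hu, he', huw, huw, Bml, Bmr]
    ring
  have hnw : ∀ (n : EuclideanSpace ℝ (Fin m)) (k : κ),
      B ((e.symm n : W) : LV D) (wv k) = 2 * inner ℝ n (u k) := by
    intro n k
    have h1 := he' (e.symm n) (uw k)
    rw [e.apply_symm_apply, huw, Bmr] at h1
    rw [hu, h1]
    ring
  -- positivity from the neighbours
  have hgen : ∀ l : LV D →ₗ[ℝ] ℝ, l (V v) = 0 → l (V j) = 0 → (∀ k : κ, 0 ≤ l (V (f k))) →
      ∀ i, 0 ≤ l (V i) := by
    intro l h1 h2 h3 i
    have hfr : Module.finrank ℝ (Submodule.span ℝ (V '' {v, j})) + 2 ≤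
        Module.finrank ℝ (LV D) := by
      have h4 := finrank_span_finset_le_card (R := ℝ) ({V v, V j} : Finset (LV D))
      have h5 := Finset.card_le_two (a := V v) (b := V j)
      have h6 : V '' {v, j} = (({V v, V j} : Finset (LV D)) : Set (LV D)) := by
        rw [Set.image_pair]
        simp
      rw [h6]
      unfold Set.finrank at h4
      rw [hE]
      omega
    have hne : ({v, j} : Set ι) ≠ Set.univ := by
      intro h
      apply hnu v j j
      rw [← h]
      ext x
      simp
    obtain ⟨y, a, hy, ha, hak, hVi⟩ := hC2 ι (LV D) V sc {v, j} hj.2 hne hfr i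
    have hly : l y = 0 := by
      have : Submodule.span ℝ (V '' {v, j}) ≤ LinearMap.ker l := by
        rw [Submodule.span_le]
        rintro _ ⟨x, hx, rfl⟩
        rcases hx with rfl | hx
        · exact h1
        · rw [Set.mem_singleton_iff] at hx
          rw [hx]
          exact h2
      exact this hy
    rw [hVi, map_add, hly, zero_add, map_sum]
    refine Finset.sum_nonneg fun k _ => ?_
    rw [map_smul, smul_eq_mul]
    by_cases hk : a k = 0
    · rw [hk, zero_mul]
    · obtain ⟨hk1, hk2⟩ := hak k hk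
      refine mul_nonneg (ha k) ?_
      have hk3 : k ≠ v ∧ k ≠ j ∧ Face V {v, j, k} := by
        refine ⟨?_, ?_, ?_⟩
        · rintro rfl
          exact hk1 (by simp)
        · rintro rfl
          exact hk1 (by simp)
        · have : ({v, j, k} : Set ι) = insert k {v, j} := by
            ext x
            simp only [Set.mem_insert_iff, Set.mem_singleton_iff]
            tauto
          rw [this]
          exact hk2
      exact h3 ⟨k, hk3⟩
  have hWz : ∀ x : W, B ((x : W) : LV D) (V v) = 0 ∧ B ((x : W) : LV D) (V j) = 0 ∧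
      B ((x : W) : LV D) (V o) = 0 ∧ B ((x : W) : LV D) Xj = 0 ∧ B ((x : W) : LV D) Xo = 0 := by
    intro x
    obtain ⟨h1, h2, h3⟩ := (memW x).1 x.2
    rw [B_comm] at h1 h2 h3
    have h4 := h2
    have h5 := h3
    rw [hXj, Bar, h1, zero_add] at h4
    rw [hXo, Bar, h1, zero_add] at h5
    exact ⟨h1, h4, h5, h2, h3⟩
  refine ⟨m, κ, inferInstance, f, u, hm, ?_, ?_, ?_, ?_, ?_, ?_⟩
  · intro k
    constructor
    · rintro ⟨k', rfl⟩
      exact hf k'
    · intro hk
      exact ⟨⟨k, hk⟩, rfl⟩
  · intro i k hik hface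
    have hik' : f i ≠ f k := fun h => hik (f.injective h)
    rw [huu, wvw]
    have h1 : B (V (f i)) (V (f k)) = -1 := hV.edge _ _ hik' hface
    rw [Bar, Bal, Bal, hvv, hvk, h1, B_comm (V (f i)) (V v), hvk]
    unfold gm
    rw [if_neg hik']
    ring
  · intro i
    rw [huu, wvw]
    rw [Bar, Bal, Bal, hvv, hvk, hV.norm, B_comm (V (f i)) (V v), hvk]
    ring
  · -- no nonzero functional is nonpositive
    intro n hn
    by_contra hcon
    push Not at hcon
    set nw := e.symm n with hnwdef
    have hnw0 : nw ≠ 0 := by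
      intro h
      apply hn
      rw [← e.apply_symm_apply n, ← hnwdef, h, map_zero]
    obtain ⟨z1, z2, z3, z4, z5⟩ := hWz nw
    let l : LV D →ₗ[ℝ] ℝ := -(Bl D (nw : LV D))
    have hl : ∀ x, l x = -B (nw : LV D) x := fun _ => rfl
    have hl1 : l (V v) = 0 := by rw [hl, z1, neg_zero]
    have hl2 : l (V j) = 0 := by rw [hl, z2, neg_zero]
    have hl3 : l (V o) = 0 := by rw [hl, z3, neg_zero]
    have hpos := hgen l hl1 hl2 (by
      intro k
      rw [hl, wvV, Bsr, Bar, Bar, Bmr, Bmr, z1, z4, z5, hnw]
      have := hcon k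
      linarith)
    have hZ : Face V {i | l (V i) = 0} := ⟨l, hpos, fun i => Iff.rfl⟩
    have hZne : {i | l (V i) = 0} ≠ Set.univ := by
      intro h
      have h1 : (⊤ : Submodule ℝ (LV D)) ≤ LinearMap.ker l := by
        rw [← hV.span, Submodule.span_le]
        rintro _ ⟨x, rfl⟩
        have : x ∈ {i | l (V i) = 0} := h ▸ Set.mem_univ x
        exact this
      have h2 : l (nw : LV D) = 0 := h1 (Submodule.mem_top)
      rw [hl] at h2
      have := hWpos nw hnw0
      linarith
    apply hnf
    refine hC1 ι (LV D) V sc _ _ hZ hZne ?_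
    intro x hx
    simp only [Set.mem_insert_iff, Set.mem_singleton_iff] at hx
    rcases hx with rfl | rfl | rfl
    · exact hl1
    · exact hl2
    · exact hl3
  · -- facets
    intro s hs
    unfold LK at hs
    simp only [Finset.mem_filter, Finset.mem_univ, true_and] at hs
    obtain ⟨hvs, hjs, hsc, hsF, hsne⟩ := hs
    set S' : Set ι := insert v (insert j ((s.map f : Finset ι) : Set ι)) with hS'
    have hvS : v ∈ S' := by simp [hS']
    have hjS : j ∈ S' := by simp [hS']
    have hkS : ∀ k : κ, f k ∈ S' ↔ k ∈ s := by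
      intro k
      rw [hS']
      simp only [Set.mem_insert_iff, Finset.mem_coe, Finset.mem_map']
      constructor
      · rintro (h | h | h)
        · exact absurd h (hf k).1
        · exact absurd h (hf k).2.1
        · exact h
      · intro h
        exact Or.inr (Or.inr h)
    have hoS : o ∉ S' := by
      intro h
      apply hnf
      refine hC1 ι (LV D) V sc _ _ hsF hsne ?_
      intro x hx
      simp only [Set.mem_insert_iff, Set.mem_singleton_iff] at hx
      rcases hx with rfl | rfl | rfl
      · exact hvS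
      · exact hjS
      · exact h
    obtain ⟨l, hl0, hlS⟩ := hsF
    have hlv : l (V v) = 0 := (hlS v).1 hvS
    have hlj : l (V j) = 0 := (hlS j).1 hjS
    have hlo : 0 < l (V o) := lt_of_le_of_ne (hl0 o) fun h => hoS ((hlS o).2 h.symm)
    have hlXj : l Xj = 0 := by rw [hXj, map_add, hlv, hlj, add_zero]
    have hlXo : l Xo = l (V o) := by rw [hXo, map_add, hlv, zero_add]
    have hlw : ∀ k, l (wv k) = l (V (f k)) - 2 / c * l (V o) := by
      intro k
      rw [hwv, map_sub, map_sub, map_add, map_smul, map_smul, hlv, hlXj, hlXo]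
      simp only [smul_eq_mul]
      ring
    obtain ⟨n', hn'⟩ : ∃ n' : EuclideanSpace ℝ (Fin m), ∀ x, inner ℝ n' x =
        l ((e.symm x : W) : LV D) := by
      let g : EuclideanSpace ℝ (Fin m) →ₗ[ℝ] ℝ := l ∘ₗ W.subtype ∘ₗ e.symm.toLinearMap
      refine ⟨(InnerProductSpace.toDual ℝ (EuclideanSpace ℝ (Fin m))).symm
        (LinearMap.toContinuousLinearMap g), fun x => ?_⟩
      rw [InnerProductSpace.toDual_symm_apply]
      rfl
    have hn'u : ∀ k, inner ℝ n' (u k) = 1 / 2 * l (wv k) := by
      intro k
      rw [hn', hu, e.symm_apply_apply, huw, map_smul, smul_eq_mul]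
    constructor
    · rw [Fintype.linearIndependent_iff]
      intro g hg i0
      have hg1 : ∑ i : s, g i • wv i = 0 := by
        have h1 := congrArg (fun x => ((e.symm x : W) : LV D)) hg
        simp only [map_sum, map_smul, map_zero, ZeroMemClass.coe_zero] at h1
        have h2 : ∀ i : s, ((e.symm (u i) : W) : LV D) = (1 / 2 : ℝ) • wv i := by
          intro i
          rw [hu, e.symm_apply_apply, huw]
        rw [AddSubmonoidClass.coe_finsetSum] at h1
        simp only [SetLike.val_smul, h2] at h1
        have h3 : ∑ i : s, g i • ((1 / 2 : ℝ) • wv i) = (1 / 2 : ℝ) • ∑ i : s, g i • wv i := by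
          rw [Finset.smul_sum]
          exact Finset.sum_congr rfl fun i _ => smul_comm _ _ _
        rw [h3] at h1
        rcases smul_eq_zero.1 h1 with h4 | h4
        · norm_num at h4
        · exact h4
      have hg2 : ∑ i : s, g i = 0 := by
        have h1 := congrArg l hg1
        rw [map_sum, map_zero] at h1
        have h2 : ∀ i : s, l (g i • wv i) = g i * (-(2 / c * l (V o))) := by
          intro i
          rw [map_smul, smul_eq_mul, hlw, (hlS (f i)).1 ((hkS i).2 i.2)]
          ring
        rw [Finset.sum_congr rfl fun i _ => h2 i, ← Finset.sum_mul] at h1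
        rcases mul_eq_zero.1 h1 with h3 | h3
        · exact h3
        · exfalso
          have : 0 < 2 / c * l (V o) := by positivity
          linarith
      have hg3 : ∑ i : s, g i • V (f i) -
          (∑ i : s, g i * (cc V o (f i) / c)) • (V v + V j) = 0 := by
        have h1 : ∑ i : s, g i • wv i = (∑ i : s, g i) • V v + ∑ i : s, g i • V (f i) -
            (∑ i : s, g i * (cc V o (f i) / c)) • Xj - ((∑ i : s, g i) * (2 / c)) • Xo := by
          rw [Finset.sum_smul, Finset.sum_smul, Finset.sum_mul, Finset.sum_smul,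
            ← Finset.sum_add_distrib, ← Finset.sum_sub_distrib, ← Finset.sum_sub_distrib]
          refine Finset.sum_congr rfl fun i _ => ?_
          rw [hwv]
          module
        rw [hg1, hg2, zero_smul, zero_mul, zero_smul, zero_add, sub_zero, hXj] at h1
        exact h1.symm
      obtain ⟨φ, hφ1, hφ0⟩ := dual_fun V S' (hV.simp S' ⟨l, hl0, hlS⟩ hsne) (f i0)
        ((hkS i0).2 i0.2)
      have h4 := congrArg φ hg3
      rw [map_sub, map_sum, map_smul, map_add, map_zero,
        hφ0 v hvS (Ne.symm (hf i0).1), hφ0 j hjS (Ne.symm (hf i0).2.1), add_zero, smul_zero,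
        sub_zero, Finset.sum_eq_single i0] at h4
      · rw [map_smul, hφ1, smul_eq_mul, mul_one] at h4
        exact h4
      · intro i _ hi
        rw [map_smul, hφ0 (f i) ((hkS i).2 i.2), smul_zero]
        intro h
        exact hi (Subtype.ext (f.injective h))
      · intro h
        exact absurd (Finset.mem_univ _) h
    · refine ⟨(-(c / l (V o))) • n', ?_, ?_⟩
      · intro k
        rw [real_inner_smul_left, hn'u, hlw]
        have h1 : -(c / l (V o)) * (1 / 2 * (l (V (f k)) - 2 / c * l (V o))) =
            1 - c * l (V (f k)) / (2 * l (V o)) := by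
          field_simp
          ring
        rw [h1]
        have : 0 ≤ c * l (V (f k)) / (2 * l (V o)) := by
          have := hl0 (f k)
          positivity
        linarith
      · intro k
        rw [real_inner_smul_left, hn'u, hlw]
        have h1 : -(c / l (V o)) * (1 / 2 * (l (V (f k)) - 2 / c * l (V o))) =
            1 - c * l (V (f k)) / (2 * l (V o)) := by
          field_simp
          ring
        rw [h1, ← hkS k, hlS (f k)]
        constructor
        · intro h
          rw [h]
          simp
        · intro h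
          have h2 : c * l (V (f k)) / (2 * l (V o)) = 0 := by linarith
          rcases div_eq_zero_iff.1 h2 with h3 | h3
          · rcases mul_eq_zero.1 h3 with h4 | h4
            · exact absurd h4 hcpos.ne'
            · exact h4
          · exfalso
            linarith
  · -- supporting functionals
    intro n hn1 _
    set nw := e.symm n with hnwdef
    obtain ⟨z1, z2, z3, z4, z5⟩ := hWz nw
    let l : LV D →ₗ[ℝ] ℝ := -(Bl D ((nw : LV D) + Xj))
    have hl : ∀ x, l x = -(B (nw : LV D) x + B Xj x) := by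
      intro x
      change -(B ((nw : LV D) + Xj) x) = _
      rw [Bal]
    have hl1 : l (V v) = 0 := by rw [hl, z1, xjv]; ring
    have hlXj : l Xj = 0 := by rw [hl, z4, xjj]; ring
    have hlXo : l Xo = c := by rw [hl, z5, xjo]; ring
    have hl2 : l (V j) = 0 := by
      rw [hXj, map_add, hl1, zero_add] at hlXj
      exact hlXj
    have hl3 : l (V o) = c := by
      rw [hXo, map_add, hl1, zero_add] at hlXo
      exact hlXo
    have hlk : ∀ k : κ, l (V (f k)) = 2 * (1 - inner ℝ n (u k)) := by
      intro k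
      rw [wvV, map_sub, map_add, map_add, map_smul, map_smul, hl1, hlXj, hlXo, hl, hnw, wv2]
      simp only [smul_eq_mul]
      field_simp
      ring
    have hpos := hgen l hl1 hl2 (by
      intro k
      rw [hlk]
      have := hn1 k
      linarith)
    have hZ : Face V {i | l (V i) = 0} := ⟨l, hpos, fun i => Iff.rfl⟩
    have hZne : {i | l (V i) = 0} ≠ Set.univ := by
      intro h
      have : o ∈ {i | l (V i) = 0} := h ▸ Set.mem_univ o
      have h2 : l (V o) = 0 := this
      rw [hl3] at h2
      exact hcpos.ne' h2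
    obtain ⟨S, hZS, hSF, hSne, hScard⟩ := hC3 ι (LV D) V sc _ hZ hZne
    have hvS : v ∈ S := hZS hl1
    have hjS : j ∈ S := hZS hl2
    have hSk : ∀ k ∈ S, k ≠ v → k ≠ j → Face V {v, j, k} := by
      intro k hk _ _
      refine hC1 ι (LV D) V sc _ _ hSF hSne ?_
      intro x hx
      simp only [Set.mem_insert_iff, Set.mem_singleton_iff] at hx
      rcases hx with rfl | rfl | rfl
      · exact hvS
      · exact hjS
      · exact hk
    let s : Finset κ := Finset.univ.filter fun k => f k ∈ S
    have hsmap : s.map f = (S.erase v).erase j := by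
      ext x
      simp only [Finset.mem_map, Finset.mem_erase, s, Finset.mem_filter, Finset.mem_univ, true_and]
      constructor
      · rintro ⟨k, hk, rfl⟩
        exact ⟨(hf k).2.1, (hf k).1, hk⟩
      · rintro ⟨h1, h2, h3⟩
        exact ⟨⟨x, h2, h1, hSk x h3 h2 h1⟩, h3, rfl⟩
    have hset : (insert v (insert j ((s.map f : Finset ι) : Set ι)) : Set ι) = (S : Set ι) := by
      rw [hsmap]
      ext x
      simp only [Set.mem_insert_iff, Finset.mem_coe, Finset.mem_erase]
      constructor
      · rintro (h | h | h)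
        · rw [h]
          exact hvS
        · rw [h]
          exact hjS
        · exact h.2.2
      · intro h
        by_cases h1 : x = v
        · exact Or.inl h1
        · by_cases h2 : x = j
          · exact Or.inr (Or.inl h2)
          · exact Or.inr (Or.inr ⟨h2, h1, h⟩)
    refine ⟨s, ?_, ?_⟩
    · unfold LK
      simp only [Finset.mem_filter, Finset.mem_univ, true_and]
      rw [hset]
      refine ⟨?_, ?_, ?_, hSF, hSne⟩
      · rw [hsmap]
        simp
      · rw [hsmap]
        simp
      · rw [hsmap, Finset.card_erase_of_mem, Finset.card_erase_of_mem hvS]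
        · rw [hE] at hScard
          omega
        · rw [Finset.mem_erase]
          exact ⟨hjv, hjS⟩
    · intro k hk
      simp only [s, Finset.mem_filter, Finset.mem_univ, true_and]
      apply hZS
      change l (V (f k)) = 0
      rw [hlk, hk]
      ring

end Pool.Agent.H821R3.ES
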