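import Pool.Agent.H242R3.ES.StmtsK
import Pool.Agent.H821R3.ES.P3

/-!
# Common lemmas for the angle sums K8a and K8b
-/

set_option autoImplicit false
set_option maxHeartbeats 4000000

open MeasureTheory Finset
open scoped Classical

namespace Pool.Agent.H821R3.ES

open Pool.Agent.H242R3.ES

/-- the plane `{v, Q}^⊥` -/
theorem proj (v Q : LV 3) (a : ℝ) (ha : 0 < a) (hv : B v v = 1) (hvQ : B v Q = 0)
    (hQ : B Q Q = -a ^ 2) :
    ∃ π : LV 3 →ₗ[ℝ] EuclideanSpace ℝ (Fin 2),
      (∀ x y, inner ℝ (π x) (π y) = B x y - B x v * B y v + B x Q * B y Q / a ^ 2) ∧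
      ∀ n, ∃ x, B x v = 0 ∧ B x Q = 0 ∧ π x = n := by
  have ha2 : a ^ 2 ≠ 0 := by positivity
  -- the projection onto the orthogonal complement
  let P : LV 3 →ₗ[ℝ] LV 3 := LinearMap.id - (Bl 3 v).smulRight v +
    ((1 / a ^ 2) • (Bl 3 Q).smulRight Q)
  have hP : ∀ x, P x = x - B v x • v + (1 / a ^ 2) • (B Q x • Q) := fun x => rfl
  let W : Submodule ℝ (LV 3) := LinearMap.ker (Bl 3 v) ⊓ LinearMap.ker (Bl 3 Q)
  have hW : ∀ x, x ∈ W ↔ B v x = 0 ∧ B Q x = 0 := fun x => Iff.rfl
  have hQv : B Q v = 0 := by rw [B_comm, hvQ]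
  have hPW : ∀ x, P x ∈ W := by
    intro x
    rw [hW, hP]
    constructor
    · rw [Bar, Bsr, Bmr, Bmr, Bmr, hv, hvQ]; ring
    · rw [Bar, Bsr, Bmr, Bmr, Bmr, hQv, hQ]; field_simp; ring
  have hPid : ∀ x ∈ W, P x = x := by
    intro x hx
    rw [hW] at hx
    rw [hP, hx.1, hx.2]
    simp
  let P' : LV 3 →ₗ[ℝ] W := P.codRestrict W hPW
  have hE : Module.finrank ℝ (LV 3) = 4 := by
    rw [Module.finrank_fintype_fun_eq_card, Fintype.card_option, Fintype.card_fin]
  have hWr : Module.finrank ℝ W = 2 := by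
    have h1 : LinearMap.range P' = ⊤ := by
      rw [LinearMap.range_eq_top]
      intro y
      exact ⟨y, Subtype.ext (hPid y y.2)⟩
    have h2 : LinearMap.ker P' = Submodule.span ℝ {v, Q} := by
      apply le_antisymm
      · intro x hx
        have h3 : P x = 0 := congrArg Subtype.val hx
        rw [hP] at h3
        have h4 : x = B v x • v + (-(1 / a ^ 2) * B Q x) • Q := by
          have h5 : x = B v x • v - (1 / a ^ 2) • (B Q x • Q) := by
            rw [eq_sub_iff_add_eq, ← sub_eq_zero, ← h3]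
            abel
          rw [neg_mul, neg_smul, ← sub_eq_add_neg, ← smul_smul]
          exact h5
        rw [h4]
        exact Submodule.add_mem _ (Submodule.smul_mem _ _ (Submodule.subset_span (by simp)))
          (Submodule.smul_mem _ _ (Submodule.subset_span (by simp)))
      · rw [Submodule.span_le]
        intro x hx
        simp only [Set.mem_insert_iff, Set.mem_singleton_iff] at hx
        have h3 : P x = 0 := by
          rw [hP]
          rcases hx with rfl | rfl
          · rw [hv, hQv]; simp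
          · rw [hvQ, hQ, smul_smul]
            have : 1 / a ^ 2 * -a ^ 2 = -1 := by field_simp
            rw [this]
            simp
        exact Subtype.ext h3
    have h3 := LinearMap.finrank_range_add_finrank_ker P'
    rw [h1, finrank_top, hE, h2] at h3
    have h4 : LinearIndependent ℝ ![v, Q] := by
      rw [LinearIndependent.pair_iff]
      intro s t hst
      have h5 : B v (s • v + t • Q) = 0 := by rw [hst]; exact (Bl 3 v).map_zero
      have h6 : B Q (s • v + t • Q) = 0 := by rw [hst]; exact (Bl 3 Q).map_zero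
      rw [Bar, Bmr, Bmr, hv, hvQ] at h5
      rw [Bar, Bmr, Bmr, hQv, hQ] at h6
      refine ⟨by linarith, ?_⟩
      have h7 : t * a ^ 2 = 0 := by linarith
      rcases mul_eq_zero.1 h7 with h8 | h8
      · exact h8
      · exact absurd h8 ha2
    have h5 : Module.finrank ℝ (Submodule.span ℝ {v, Q}) = 2 := by
      have h6 := finrank_span_eq_card h4
      rw [Fintype.card_fin] at h6
      have h7 : Set.range ![v, Q] = {v, Q} := by
        ext x
        simp only [Matrix.range_cons, Matrix.range_empty, Set.union_empty, Set.mem_union,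
          Set.mem_singleton_iff, Set.mem_insert_iff]
      rwa [h7] at h6
    rw [h5] at h3
    omega
  obtain ⟨e, he⟩ := iso W ((Bl 3).compl₁₂ W.subtype W.subtype)
    (fun x y => B_comm _ _) (fun x hx => by
      have h1 := (hW x).1 x.2
      refine pos_of_orth Q x ?_ h1.2 (fun h => hx (Subtype.ext h))
      rw [hQ]
      have : 0 < a ^ 2 := by positivity
      linarith) 2 hWr
  refine ⟨e.toLinearMap ∘ₗ P', ?_, ?_⟩
  · intro x y
    have h1 : inner ℝ ((e.toLinearMap ∘ₗ P') x) ((e.toLinearMap ∘ₗ P') y) = B (P x) (P y) :=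
      he (P' x) (P' y)
    rw [h1, hP x, hP y]
    simp only [Bar, Bsr, Bmr, Bal, Bsl, Bml, hv, hvQ, hQv, hQ]
    rw [B_comm x v, B_comm y v, B_comm x Q, B_comm y Q]
    field_simp
    ring
  · intro n
    have h1 := (hW (e.symm n)).1 (e.symm n).2
    refine ⟨e.symm n, by rw [B_comm]; exact h1.1, by rw [B_comm]; exact h1.2, ?_⟩
    have h2 : P' (e.symm n : LV 3) = e.symm n := Subtype.ext (hPid _ (e.symm n).2)
    show e (P' (e.symm n : LV 3)) = n
    rw [h2, LinearEquiv.apply_symm_apply]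

/-- the numbering of a pair -/
theorem pairEquiv {κ : Type} (i k : κ) (hik : i ≠ k) :
    ∃ e : Fin 2 ≃ ({i, k} : Finset κ), (e 0 : κ) = i ∧ (e 1 : κ) = k := by
  let f : Fin 2 → ({i, k} : Finset κ) := ![⟨i, by simp⟩, ⟨k, by simp⟩]
  have hf : Function.Bijective f := by
    rw [Fintype.bijective_iff_injective_and_card]
    refine ⟨?_, ?_⟩
    · intro x y hxy
      fin_cases x <;> fin_cases y <;> simp [f] at hxy ⊢
      · exact hik hxy
      · exact hik hxy.symm
    · rw [Fintype.card_fin, Fintype.card_coe, Finset.card_pair hik]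
  exact ⟨Equiv.ofBijective f hf, rfl, rfl⟩

theorem pair_indep {κ : Type} (u : κ → EuclideanSpace ℝ (Fin 2)) (i k : κ) (hik : i ≠ k)
    (hi : inner ℝ (u i) (u i) = (1 : ℝ)) (hk : inner ℝ (u k) (u k) = (1 : ℝ))
    (h1 : -1 < inner ℝ (u i) (u k)) (h2 : inner ℝ (u i) (u k) < 1) :
    LinearIndependent ℝ (fun j : ({i, k} : Finset κ) => u j) := by
  obtain ⟨e, e0, e1⟩ := pairEquiv i k hik
  rw [← linearIndependent_equiv e]
  have h3 : (fun j : ({i, k} : Finset κ) => u j) ∘ e = ![u i, u k] := by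
    funext j
    fin_cases j
    · show u (e 0) = u i
      rw [e0]
    · show u (e 1) = u k
      rw [e1]
  rw [h3, LinearIndependent.pair_iff]
  intro s t hst
  have h4 : inner ℝ (s • u i + t • u k) (u i) = (0 : ℝ) := by rw [hst, inner_zero_left]
  have h5 : inner ℝ (s • u i + t • u k) (u k) = (0 : ℝ) := by rw [hst, inner_zero_left]
  rw [inner_add_left, inner_smul_left, inner_smul_left, hi, real_inner_comm] at h4
  rw [inner_add_left, inner_smul_left, inner_smul_left, hk] at h5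
  simp only [conj_trivial] at h4 h5
  set c := inner ℝ (u i) (u k) with hc
  have h6 : s * (1 - c ^ 2) = 0 := by
    linear_combination h4 - c * h5
  have h7 : t * (1 - c ^ 2) = 0 := by
    linear_combination h5 - c * h4
  have h8 : 1 - c ^ 2 ≠ 0 := by
    have : 0 < 1 - c ^ 2 := by nlinarith
    exact this.ne'
  exact ⟨(mul_eq_zero.1 h6).resolve_right h8, (mul_eq_zero.1 h7).resolve_right h8⟩

/-- the contribution of a pair -/
theorem pair_term (hPhi : PhiInt) {κ : Type} (u : κ → EuclideanSpace ℝ (Fin 2)) (i k : κ)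
    (hik : i ≠ k)
    (hi : inner ℝ (u i) (u i) = (1 : ℝ)) (hk : inner ℝ (u k) (u k) = (1 : ℝ))
    (h1 : -1 < inner ℝ (u i) (u k)) (h2 : inner ℝ (u i) (u k) < 1) :
    Real.sqrt (GU ({i, k} : Finset κ) u).det *
      ∫ x in {x : ({i, k} : Finset κ) → ℝ | ∀ j, 0 ≤ x j},
        Real.exp (-Real.pi * ∑ j : ({i, k} : Finset κ), ∑ l : ({i, k} : Finset κ),
          x j * inner ℝ (u j) (u l) * x l)
      = Real.arccos (inner ℝ (u i) (u k)) / (2 * Real.pi) := by
  obtain ⟨e, e0, e1⟩ := pairEquiv i k hik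
  rw [← hPhi _ h1 h2]
  have hki : inner ℝ (u k) (u i) = inner ℝ (u i) (u k) := real_inner_comm _ _
  congr 1
  · congr 1
    rw [← Matrix.det_submatrix_equiv_self e, Matrix.det_fin_two]
    simp only [GU, Matrix.submatrix_apply, e0, e1, hi, hk, hki]
    ring
  · have hmp := MeasureTheory.volume_measurePreserving_piCongrLeft
      (fun _ : ({i, k} : Finset κ) => ℝ) e
    have hset : (MeasurableEquiv.piCongrLeft (fun _ : ({i, k} : Finset κ) => ℝ) e) ⁻¹'
        {x : ({i, k} : Finset κ) → ℝ | ∀ j, 0 ≤ x j} = {x : Fin 2 → ℝ | ∀ j, 0 ≤ x j} := by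
      ext x
      simp only [Set.mem_preimage, Set.mem_ofPred_eq]
      constructor
      · intro h j
        have := h (e j)
        rwa [MeasurableEquiv.coe_piCongrLeft, Equiv.piCongrLeft_apply_apply] at this
      · intro h j
        obtain ⟨j', rfl⟩ := e.surjective j
        rw [MeasurableEquiv.coe_piCongrLeft, Equiv.piCongrLeft_apply_apply]
        exact h j'
    rw [← hmp.setIntegral_preimage_emb
      (MeasurableEquiv.piCongrLeft (fun _ : ({i, k} : Finset κ) => ℝ) e).measurableEmbedding, hset]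
    refine integral_congr_ae (Filter.Eventually.of_forall fun x => ?_)
    show Real.exp _ = Real.exp _
    congr 1
    have hx : ∀ j, (MeasurableEquiv.piCongrLeft (fun _ : ({i, k} : Finset κ) => ℝ) e) x (e j)
        = x j := by
      intro j
      rw [MeasurableEquiv.coe_piCongrLeft, Equiv.piCongrLeft_apply_apply]
    have key : ∀ F : ({i, k} : Finset κ) → ℝ, ∑ j, F j = F (e 0) + F (e 1) := fun F => by
      rw [← e.sum_comp, Fin.sum_univ_two]
    congr 1
    rw [key, key, key]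
    simp only [hx, e0, e1, hi, hk, hki]
    ring

/-- the angles of a polygon with unit vertices -/
theorem TLsum (hTL : TaskTL) (hPhi : PhiInt) {κ : Type} [Fintype κ]
    (u : κ → EuclideanSpace ℝ (Fin 2)) (S : Finset (Finset κ))
    (hu : ∀ k, inner ℝ (u k) (u k) = (1 : ℝ))
    (h1 : ∀ n : EuclideanSpace ℝ (Fin 2), n ≠ 0 → ∃ k, 0 < inner ℝ n (u k))
    (h2 : ∀ s ∈ S, ∃ i k, i ≠ k ∧ s = {i, k} ∧ -1 < inner ℝ (u i) (u k) ∧ inner ℝ (u i) (u k) < 1 ∧
      ∃ n : EuclideanSpace ℝ (Fin 2), (∀ k, inner ℝ n (u k) ≤ 1) ∧ ∀ k, k ∈ s ↔ inner ℝ n (u k) = 1)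
    (h3 : ∀ n : EuclideanSpace ℝ (Fin 2), (∀ k, inner ℝ n (u k) ≤ 1) → (∃ k, inner ℝ n (u k) = 1) →
      ∃ s ∈ S, ∀ k, inner ℝ n (u k) = 1 → k ∈ s)
    (θ : Finset κ → ℝ) (hθ : ∀ s ∈ S, ∀ i k, i ≠ k → s = {i, k} →
      θ s = Real.arccos (inner ℝ (u i) (u k))) : ∑ s ∈ S, θ s = 2 * Real.pi := by
  have h := hTL κ 2 (by norm_num) u S h1 (fun s hs => by
    obtain ⟨i, k, hik, rfl, ha, hb, n, hn⟩ := h2 s hs
    exact ⟨Finset.card_pair hik, pair_indep u i k hik (hu i) (hu k) ha hb, n, hn⟩) h3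
  have h4 : ∀ s ∈ S, Real.sqrt (GU s u).det *
      ∫ x in {x : s → ℝ | ∀ i, 0 ≤ x i}, Real.exp (-Real.pi * ∑ i : s, ∑ k : s,
        x i * inner ℝ (u i) (u k) * x k) = θ s / (2 * Real.pi) := by
    intro s hs
    obtain ⟨i, k, hik, rfl, ha, hb, n, hn⟩ := h2 s hs
    rw [hθ _ hs i k hik rfl]
    exact pair_term hPhi u i k hik (hu i) (hu k) ha hb
  rw [Finset.sum_congr rfl h4, ← Finset.sum_div] at h
  have hpi := Real.pi_pos
  field_simp at h
  linarith

/-- Parseval in the plane -/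
theorem two (p q x y : EuclideanSpace ℝ (Fin 2)) (hp : inner ℝ p p = (1 : ℝ))
    (hq : inner ℝ q q = (1 : ℝ)) (hpq : inner ℝ p q = (0 : ℝ)) :
    inner ℝ x y = (inner ℝ x p * inner ℝ y p + inner ℝ x q * inner ℝ y q : ℝ) := by
  simp only [PiLp.inner_apply, Fin.sum_univ_two, RCLike.inner_apply, conj_trivial] at *
  have e0 : q 0 = -(p 1) * (p 0 * q 1 - p 1 * q 0) := by
    linear_combination (-(q 0)) * hp + p 0 * hpq
  have e1 : q 1 = p 0 * (p 0 * q 1 - p 1 * q 0) := by
    linear_combination (-(q 1)) * hp + p 1 * hpq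
  have hd : (p 0 * q 1 - p 1 * q 0) ^ 2 = 1 := by
    have : (p 0 * q 1 - p 1 * q 0) ^ 2 = (p 0 * p 0 + p 1 * p 1) * (q 0 * q 0 + q 1 * q 1)
      - (q 0 * p 0 + q 1 * p 1) ^ 2 := by ring
    rw [this, hp, hq, hpq]; ring
  obtain ⟨δ, hδ⟩ : ∃ δ, δ = p 0 * q 1 - p 1 * q 0 := ⟨_, rfl⟩
  rw [← hδ] at e0 e1 hd
  rw [e0, e1]
  linear_combination (-(x 0 * y 0 + x 1 * y 1)) * hp - (x 0 * y 0 * p 1 ^ 2 + x 1 * y 1 * p 0 ^ 2
    - p 0 * p 1 * (x 0 * y 1 + x 1 * y 0)) * hd

end Pool.Agent.H821R3.ES
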